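import Pool.Agent.Helper86.Poly.Goals

set_option autoImplicit false

namespace Pool.Agent.Helper73.Poly

open Pool.Agent.Helper86.Poly
open MeasureTheory Set

namespace PkBV2

/-- Reindexing a `lintegral` over a function space. -/
theorem lint_reindex {α β : Type} [Fintype α] [Fintype β] (e : α ≃ β) (F : (β → ℝ) → ENNReal) :
    ∫⁻ h : β → ℝ, F h = ∫⁻ x : α → ℝ, F (fun y => x (e.symm y)) := by
  have hmp := volume_measurePreserving_piCongrLeft (fun _ : β => ℝ) e
  rw [← hmp.lintegral_comp_emb (MeasurableEquiv.measurableEmbedding _) F]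
  refine lintegral_congr fun x => ?_
  congr 1
  funext y
  obtain ⟨a, rfl⟩ := e.surjective y
  rw [Equiv.symm_apply_apply]
  exact MeasurableEquiv.piCongrLeft_apply_apply (β := fun _ => ℝ) e x a

/-- Splitting off the `none` block. -/
def optEquiv {α : Type} (b : Option α → ℕ) :
    (Fin (b none) ⊕ (Σ i : α, Fin (b (some i)))) ≃ (Σ i : Option α, Fin (b i)) where
  toFun := Sum.elim (fun j => ⟨none, j⟩) (fun p => ⟨some p.1, p.2⟩)
  invFun := fun p => match p with
    | ⟨none, j⟩ => Sum.inl j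
    | ⟨some i, j⟩ => Sum.inr ⟨i, j⟩
  left_inv := by
    rintro (j | ⟨i, j⟩) <;> rfl
  right_inv := by
    rintro ⟨_ | i, j⟩ <;> rfl

theorem lint_prod_aux (ι : Type) [Fintype ι] : ∀ (b : ι → ℕ)
    (f : (i : ι) → (Fin (b i) → ℝ) → ENNReal), (∀ i, Measurable (f i)) →
    ∫⁻ h : (Σ i, Fin (b i)) → ℝ, ∏ i, f i (fun j => h ⟨i, j⟩) = ∏ i, ∫⁻ x, f i x := by
  refine Fintype.induction_empty_option (P := fun (ι : Type) [Fintype ι] => ∀ (b : ι → ℕ)
    (f : (i : ι) → (Fin (b i) → ℝ) → ENNReal), (∀ i, Measurable (f i)) →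
    ∫⁻ h : (Σ i, Fin (b i)) → ℝ, ∏ i, f i (fun j => h ⟨i, j⟩) = ∏ i, ∫⁻ x, f i x) ?_ ?_ ?_ ι
  · intro α β _ e ih b f hf
    let _ : Fintype α := Fintype.ofEquiv β e.symm
    have h1 := ih (fun a => b (e a)) (fun a => f (e a)) (fun a => hf (e a))
    have h2 : ∏ i, ∫⁻ x, f i x = ∏ a, ∫⁻ x, f (e a) x :=
      (Equiv.prod_comp e (fun i => ∫⁻ x, f i x)).symm
    rw [h2, ← h1]
    rw [lint_reindex (Equiv.sigmaCongrLeft (β := fun i => Fin (b i)) e)]
    refine lintegral_congr fun x => ?_
    rw [← Equiv.prod_comp e]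
    refine Finset.prod_congr rfl fun a _ => ?_
    congr 1
    funext j
    change x ((Equiv.sigmaCongrLeft (β := fun i => Fin (b i)) e).symm ⟨e a, j⟩) = x ⟨a, j⟩
    congr 1
    rw [Equiv.symm_apply_eq]
    rfl
  · intro b f _
    simp only [Finset.univ_eq_empty, Finset.prod_empty, lintegral_const, one_mul]
    rw [volume_pi, Measure.pi_univ, Fintype.prod_empty]
  · intro α _ ih b f hf
    have h1 := ih (fun a => b (some a)) (fun a => f (some a)) (fun a => hf (some a))
    rw [Fintype.prod_option, ← h1, lint_reindex (optEquiv b)]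
    have hmp := volume_measurePreserving_sumPiEquivProdPi
      (fun _ : Fin (b none) ⊕ (Σ i : α, Fin (b (some i))) => ℝ)
    have hm2 : Measurable fun h : (Σ i : α, Fin (b (some i))) → ℝ =>
        ∏ i, f (some i) (fun j => h ⟨i, j⟩) :=
      Finset.measurable_prod _ fun i _ =>
        (hf (some i)).comp (measurable_pi_lambda _ fun j => measurable_pi_apply _)
    rw [← lintegral_prod_mul (hf none).aemeasurable hm2.aemeasurable]
    change _ = ∫⁻ z : (Fin (b none) → ℝ) × ((Σ i : α, Fin (b (some i))) → ℝ),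
      f none z.1 * ∏ i, f (some i) (fun j => z.2 ⟨i, j⟩)
    rw [← hmp.lintegral_comp_emb (MeasurableEquiv.measurableEmbedding _)]
    refine lintegral_congr fun x => ?_
    rw [Fintype.prod_option]
    rfl

/-- **G_BV2**. -/
theorem thm : G_BV2 := by
  intro ι _ _ _ a b c s hs hc
  have hQ : Continuous (gauge (convexHull ℝ (range c))) :=
    continuous_gauge (convex_convexHull ℝ _) (mem_interior_iff_mem_nhds.1 hc)
  have hS : ∀ i, Continuous (gauge (convexHull ℝ (range (s i)))) := fun i =>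
    continuous_gauge (convex_convexHull ℝ _) (mem_interior_iff_mem_nhds.1 (hs i))
  set gQ := gauge (convexHull ℝ (range c)) with hgQ
  set gS := fun i => gauge (convexHull ℝ (range (s i))) with hgS
  have hmp := volume_measurePreserving_sumPiEquivProdPi
      (fun _ : Fin a ⊕ (Σ i, Fin (b i)) => ℝ)
  have h1 := lint_prod_aux ι b (fun i x => ENNReal.ofReal (Real.exp (-(gS i x))))
    (fun i => ENNReal.measurable_ofReal.comp (Real.measurable_exp.comp (hS i).measurable.neg))
  change _ = _ * ∏ i, ∫⁻ x, ENNReal.ofReal (Real.exp (-(gS i x)))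
  rw [← h1]
  let F : ((Fin a → ℝ) × ((Σ i, Fin (b i)) → ℝ)) → ENNReal := fun z =>
    ENNReal.ofReal (Real.exp (-((∑ i, gS i (fun j => z.2 ⟨i, j⟩)) +
      gQ (z.1 - fun j => ∑ i, gS i (fun j => z.2 ⟨i, j⟩) * c i j))))
  have hF : Continuous F := by
    refine ENNReal.continuous_ofReal.comp (Real.continuous_exp.comp (Continuous.neg ?_))
    have hg : ∀ i, Continuous fun z : ((Fin a → ℝ) × ((Σ i, Fin (b i)) → ℝ)) =>
        gS i (fun j => z.2 ⟨i, j⟩) := fun i =>
      (hS i).comp (continuous_pi fun j => (continuous_apply _).comp continuous_snd)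
    refine (continuous_finsetSum _ fun i _ => hg i).add (hQ.comp ?_)
    refine continuous_fst.sub (continuous_pi fun j => ?_)
    exact continuous_finsetSum _ fun i _ => (hg i).mul continuous_const
  have h2 : ∫⁻ x, ENNReal.ofReal (Real.exp (-(Gm c s x))) = ∫⁻ z, F z := by
    rw [← hmp.lintegral_comp_emb (MeasurableEquiv.measurableEmbedding _)]
    rfl
  rw [h2]
  change ∫⁻ z, F z ∂((volume : Measure (Fin a → ℝ)).prod (volume : Measure ((Σ i, Fin (b i)) → ℝ))) = _
  rw [lintegral_prod_symm F hF.measurable.aemeasurable]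
  have h3 : ∀ h : (Σ i, Fin (b i)) → ℝ, ∫⁻ y : Fin a → ℝ, F (y, h) =
      (∫⁻ y : Fin a → ℝ, ENNReal.ofReal (Real.exp (-(gQ y)))) *
        ∏ i, ENNReal.ofReal (Real.exp (-(gS i (fun j => h ⟨i, j⟩)))) := by
    intro h
    have e1 : ∀ y : Fin a → ℝ, F (y, h) =
        (∏ i, ENNReal.ofReal (Real.exp (-(gS i (fun j => h ⟨i, j⟩))))) *
        ENNReal.ofReal (Real.exp (-(gQ (y - fun j => ∑ i, gS i (fun j => h ⟨i, j⟩) * c i j)))) := by
      intro y
      rw [← ENNReal.ofReal_prod_of_nonneg (fun i _ => (Real.exp_pos _).le),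
        ← ENNReal.ofReal_mul (Finset.prod_nonneg fun i _ => (Real.exp_pos _).le),
        ← Real.exp_sum, ← Real.exp_add]
      change ENNReal.ofReal (Real.exp _) = _
      congr 2
      rw [Finset.sum_neg_distrib]
      ring
    rw [lintegral_congr e1, lintegral_const_mul' _ _ (ENNReal.prod_ne_top fun i _ =>
      ENNReal.ofReal_ne_top)]
    rw [lintegral_sub_right_eq_self (fun y : Fin a → ℝ => ENNReal.ofReal (Real.exp (-(gQ y)))), mul_comm]
  rw [lintegral_congr h3, lintegral_const_mul]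
  refine Finset.measurable_prod _ fun i _ => ?_
  exact ENNReal.measurable_ofReal.comp (Real.measurable_exp.comp (((hS i).comp
    (continuous_pi fun j => continuous_apply _)).measurable.neg))

end PkBV2

end Pool.Agent.Helper73.Poly
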